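import Mathlib
import Pool.Agent.H791Z.ERW.Main

namespace Pool.Agent.Results.MP_f4733e_pr.ZeroSpeed

open Filter MeasureTheory ProbabilityTheory Topology

/-- Excited random walk `X` from `0` in an i.i.d. elliptic cookie environment `ω` on `ℤ^d`
(direction `(i, true)` is `+e_i`, `(i, false)` is `-e_i`; cookies are numbered from `0`, so the
cookie used at a site is the number of earlier visits to it).  Almost surely on the event that
`|X_n|` does not tend to infinity, `X_n · l / n → 0`. -/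
theorem result (d : ℕ)
    (Ω : Type) [MeasurableSpace Ω] (μ : Measure Ω) [IsProbabilityMeasure μ]
    (ω : Ω → (Fin d → ℤ) → (Fin d × Bool) → ℕ → ℝ) (X : ℕ → Ω → (Fin d → ℤ))
    (hω : Measurable ω) (hX : ∀ n, Measurable (X n))
    (hind : iIndepFun (fun (z : Fin d → ℤ) (a : Ω) => ω a z) μ)
    (hid : ∀ z : Fin d → ℤ, IdentDistrib (fun a => ω a z) (fun a => ω a 0) μ μ)
    (hel : ∀ (z : Fin d → ℤ) (e : Fin d × Bool) (k : ℕ), ∀ᵐ a ∂μ, 0 < ω a z e k)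
    (hsum : ∀ᵐ a ∂μ, ∀ (z : Fin d → ℤ) (k : ℕ), ∑ e : Fin d × Bool, ω a z e k = 1)
    (h0 : ∀ᵐ a ∂μ, X 0 a = 0)
    (hstep : ∀ (n : ℕ) (x : Fin (n + 1) → (Fin d → ℤ)) (e : Fin d × Bool)
        (A : Set ((Fin d → ℤ) → (Fin d × Bool) → ℕ → ℝ)), MeasurableSet A →
      μ.real {a | ω a ∈ A ∧ (∀ m : Fin (n + 1), X (m : ℕ) a = x m) ∧
          X (n + 1) a = x (Fin.last n) + Pi.single e.1 (if e.2 then (1 : ℤ) else -1)} =
      ∫ a in {a | ω a ∈ A ∧ ∀ m : Fin (n + 1), X (m : ℕ) a = x m},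
        ω a (x (Fin.last n)) e
          ((Finset.univ.filter (fun m : Fin (n + 1) => (m : ℕ) < n ∧ x m = x (Fin.last n))).card) ∂μ)
    (l : Fin d → ℝ) (hl : l ≠ 0) :
    ∀ᵐ a ∂μ, ¬ Tendsto (fun n => √(∑ i, (X n a i : ℝ) ^ 2)) atTop atTop →
      Tendsto (fun n : ℕ => (∑ i, (X n a i : ℝ) * l i) / n) atTop (𝓝 0) :=
  Pool.Agent.H791Z.ERW.main d Ω μ ω X hω hX hind hid hel hsum h0 hstep l hl

end Pool.Agent.Results.MP_f4733e_pr.ZeroSpeed
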